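import Pool.Agent.R89.SR.Small

/-!
# Regulators of bases and the count of members of small regulator
-/

set_option autoImplicit false

namespace Pool.Agent.R89.SR

open Pool.Agent.Y732

section

variable {G : Type} [AddCommGroup G] {p : ℕ} [hp : Fact p.Prime] {h : G → ℚ_[p]}

lemma pr_torsion (hq : ∀ P Q, h (P + Q) + h (P - Q) = 2 * h P + 2 * h Q) {T : G} {n : ℤ}
    (hn : n ≠ 0) (hT : n • T = 0) (P : G) : h (P + T) - h P - h T = 0 := by
  have h1 := pr_sum hq (c := (![P, T] : Fin 2 → G)) ![1, 0] ![0, n]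
  have h0 : h 0 = 0 := by
    have := hq 0 0
    rw [add_zero, sub_zero] at this
    linear_combination (-1 / 2 : ℚ_[p]) * this
  simp only [Fin.sum_univ_two, Matrix.cons_val_zero, Matrix.cons_val_one, one_smul, zero_smul,
    zero_add, add_zero, hT, h0, sub_self, sub_zero] at h1
  push_cast at h1
  have h2 : (n : ℚ_[p]) * (h (P + T) - h P - h T) = 0 := by
    linear_combination -h1
  exact (mul_eq_zero.1 h2).resolve_left (by exact_mod_cast hn)

lemma Reg_translate (hq : ∀ P Q, h (P + Q) + h (P - Q) = 2 * h P + 2 * h Q) {r : ℕ}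
    (b T : Fin r → G) (hT : ∀ i, ∃ n : ℤ, n ≠ 0 ∧ n • T i = 0) :
    Reg h (fun i => b i + T i) = Reg h b := by
  unfold Reg
  congr 1
  ext i j
  rw [Matrix.of_apply, Matrix.of_apply]
  have hp0 : ∀ i P, h (P + T i) - h P - h (T i) = 0 := fun i P =>
    let ⟨_, hn, hnT⟩ := hT i
    pr_torsion hq hn hnT P
  have hz : ∀ i, h (T i) = 0 := by
    intro i
    have h1 := hp0 i (T i)
    obtain ⟨n, hn, hnT⟩ := hT i
    have h2 := quadratic hq (T i) 2
    rw [two_smul] at h2
    rw [h2] at h1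
    push_cast at h1
    linear_combination (1 / 2 : ℚ_[p]) * h1
  have e1 : ∀ i P, h (P + T i) = h P := fun i P => by
    linear_combination hp0 i P + hz i
  have e2 : b i + T i + (b j + T j) = b i + b j + T i + T j := by abel
  rw [e2, e1, e1, e1, e1]

/-- If the regulator of a family of as many elements as the rank does not vanish, then the
regulator of every basis modulo torsion has at least its norm. -/
theorem Reg_norm_le (hq : ∀ P Q, h (P + Q) + h (P - Q) = 2 * h P + 2 * h Q) {r : ℕ}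
    (hr : 0 < r) {b : Fin r → G} (hb : Reg h b ≠ 0) (hrank : Module.finrank ℤ G = r)
    {s : ℕ} {c : Fin s → G} (hc : LinearIndependent ℤ c)
    (hmax : ∀ Q, ∃ T : G, (∃ n : ℤ, n ≠ 0 ∧ n • T = 0) ∧
      Q + T ∈ Submodule.span ℤ (Set.range c)) : ‖Reg h b‖ ≤ ‖Reg h c‖ := by
  have hfin : Module.rank ℤ G = r := by
    have h1 : Module.rank ℤ G < Cardinal.aleph0 := by
      by_contra h2
      have h3 : Module.finrank ℤ G = 0 := by
        unfold Module.finrank
        exact Cardinal.toNat_apply_of_aleph0_le (not_lt.1 h2)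
      omega
    rw [← hrank, Module.finrank, Cardinal.cast_toNat_of_lt_aleph0 h1]
  have hs : s ≤ r := by
    have h2 := hc.cardinal_le_rank
    rw [hfin, Cardinal.mk_fin] at h2
    exact_mod_cast h2
  choose T hT hmem using fun i => hmax (b i)
  have hmem' : ∀ i, ∃ a : Fin s → ℤ, ∑ j, a j • c j = b i + T i := fun i =>
    (Submodule.mem_span_range_iff_exists_fun ℤ).1 (hmem i)
  choose a ha using hmem'
  have h2 : (fun i => b i + T i) = fun i => ∑ j, a i j • c j := by
    funext i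
    exact (ha i).symm
  have h1 := Reg_translate hq b T hT
  rw [h2] at h1
  have h3 := Reg_comb hq c a
  rw [h1] at h3
  have h4 : r ≤ s := by
    have h5 : IsUnit ((Matrix.map a (fun z : ℤ => (z : ℚ_[p])) *
        (Matrix.of fun i j => h (c i + c j) - h (c i) - h (c j)) *
        (Matrix.map a (fun z : ℤ => (z : ℚ_[p]))).transpose)) := by
      rw [Matrix.isUnit_iff_isUnit_det, isUnit_iff_ne_zero, ← h3]
      exact hb
    have h6 := Matrix.rank_of_isUnit _ h5
    rw [Fintype.card_fin] at h6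
    have h7 := Matrix.rank_mul_le_right ((Matrix.map a (fun z : ℤ => (z : ℚ_[p])) *
        (Matrix.of fun i j => h (c i + c j) - h (c i) - h (c j))))
        (Matrix.map a (fun z : ℤ => (z : ℚ_[p]))).transpose
    have h8 := Matrix.rank_le_card_height (Matrix.map a (fun z : ℤ => (z : ℚ_[p]))).transpose
    rw [Fintype.card_fin] at h8
    omega
  obtain rfl : r = s := le_antisymm h4 hs
  rw [h3, Matrix.det_mul, Matrix.det_mul, Matrix.det_transpose, norm_mul, norm_mul]
  have h5 : ‖(Matrix.map a (fun z : ℤ => (z : ℚ_[p]))).det‖ ≤ 1 := by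
    have e : (Matrix.map a (fun z : ℤ => (z : ℚ_[p]))).det = ((Matrix.det a : ℤ) : ℚ_[p]) := by
      have h9 := RingHom.map_det (Int.castRingHom ℚ_[p]) a
      exact h9.symm
    rw [e]
    exact Padic.norm_int_le_one _
  have e6 : (Matrix.of fun i j => h (c i + c j) - h (c i) - h (c j)).det = Reg h c := rfl
  rw [e6]
  calc ‖(Matrix.map a (fun z : ℤ => (z : ℚ_[p]))).det‖ * ‖Reg h c‖ *
        ‖(Matrix.map a (fun z : ℤ => (z : ℚ_[p]))).det‖ ≤ 1 * ‖Reg h c‖ * 1 := by
        gcongr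
    _ = ‖Reg h c‖ := by ring

end

variable {d r : ℕ}

/-- For every canonical `p`-adic height of the member at `v`, the regulator of the `r` points
`P 0 1, …, P 0 r` has norm greater than `1 / T`, and if the rank of the group of rational points is
`r`, then the norm of the `p`-adic regulator of the curve (the regulator of a basis of the group of
rational points modulo torsion) is greater than `1 / T`. -/
def Large (F : Family d r) (p : ℕ) [Fact p.Prime] (T : ℕ) (v : Fin d → ℤ) : Prop :=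
  ∀ h : (WQ (F.curve v)).Point → ℚ_[p], IsHeightW p (F.curve v) h →
    1 < T * ‖Reg h (fun i : Fin r => F.P v 0 i.succ)‖ ∧
    (Module.finrank ℤ (WQ (F.curve v)).Point = r →
      ∀ (s : ℕ) (c : Fin s → (WQ (F.curve v)).Point), LinearIndependent ℤ c →
        (∀ Q, ∃ T' : (WQ (F.curve v)).Point, (∃ n : ℤ, n ≠ 0 ∧ n • T' = 0) ∧
          Q + T' ∈ Submodule.span ℤ (Set.range c)) → 1 < T * ‖Reg h c‖)

lemma sml_of_not {F : Family d r} {p : ℕ} [hp : Fact p.Prime] {T : ℕ} {v : Fin d → ℤ}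
    (hr : 0 < r) (hM : F.Marked v) (ho : IsOrdinaryW p (F.curve v))
    (hn : ¬ Large F p T v) : Sml F p T v := by
  by_contra hvan
  apply hn
  intro h hh
  have h1 : 1 < T * ‖Reg h (fun i : Fin r => F.P v 0 i.succ)‖ := by
    by_contra h0
    exact hvan ⟨hM, ho, h, hh, not_lt.1 h0⟩
  refine ⟨h1, fun hrank s c hc hmax => h1.trans_le ?_⟩
  have h2 : Reg h (fun i : Fin r => F.P v 0 i.succ) ≠ 0 := by
    intro h0
    rw [h0, norm_zero, mul_zero] at h1
    exact absurd h1 (by norm_num)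
  exact mul_le_mul_of_nonneg_left (Reg_norm_le hh.1 hr h2 hrank hc hmax) (by positivity)

open Finset

open scoped Classical in
theorem fam_single_small {p : ℕ} [hp : Fact p.Prime] (F : Family d r) (hr : 0 < r)
    (hK : F.K.det ≠ 0) (hp5 : 5 ≤ p) (c : Fin d → ℤ) (N : Fin d → ℕ) {N₀ T : ℕ}
    (hN : ∀ l, N₀ ≤ N l) (hT : N₀ ≤ T) :
    ((Fintype.piFinset fun l => Ico (c l) (c l + N l)).filter fun v => Sml F p T v).card ^ r * N₀ ≤
      (2 ^ d * r * F.K.det.natAbs * p ^ 4 * ∏ l, N l) ^ r := by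
  apply countF_small hp.out hr (Int.natAbs_pos.2 hK) F.w c N _ _ hN
  · intro k a e hk hkN he hak v μ hv hμ hc
    refine fam_orbit_small hp5 hk (hkN.trans hT) ?_ hak v μ (fun i => (mem_filter.1 (hv i)).2) hμ hc
    intro h
    apply he
    have h1 := Int.natAbs_dvd_natAbs.2 h
    rw [Int.natAbs_pow, Int.natAbs_natCast] at h1
    exact h1
  · intro v hv l
    have h1 := Fintype.mem_piFinset.1 (mem_filter.1 hv).1 l
    rw [mem_Ico] at h1
    exact h1

open scoped Classical in
/-- The upper bound: finitely many primes at once. -/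
theorem family_card_small (F : Family d r) (hr : 0 < r) (hK : F.K.det ≠ 0) (S : Finset ℕ)
    (hS : ∀ p ∈ S, p.Prime ∧ 5 ≤ p) (c : Fin d → ℤ) (N : Fin d → ℕ) (N₀ T : ℕ)
    (hN : ∀ l, N₀ ≤ N l) (hT : N₀ ≤ T) :
    (((Fintype.piFinset fun l => Ico (c l) (c l + N l)).filter fun v => F.Marked v ∧
      ∃ p ∈ S, ∃ _ : Fact p.Prime, IsOrdinaryW p (F.curve v) ∧ ¬ Large F p T v).card : ℝ) *
        (N₀ : ℝ) ^ ((1 : ℝ) / r) ≤
      2 ^ d * r * |(F.K.det : ℝ)| * (∑ p ∈ S, (p : ℝ) ^ 4) * ∏ l, (N l : ℝ) := by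
  set Bx := Fintype.piFinset fun l => Ico (c l) (c l + N l) with hBx
  set V : ℕ → Finset (Fin d → ℤ) := fun p =>
    if hp : p.Prime then Bx.filter fun v => @Sml d r F p ⟨hp⟩ T v else ∅ with hV
  have h1 : (Bx.filter fun v => F.Marked v ∧ ∃ p ∈ S, ∃ _ : Fact p.Prime,
      IsOrdinaryW p (F.curve v) ∧ ¬ Large F p T v) ⊆ S.biUnion V := by
    intro v hv
    rw [mem_filter] at hv
    obtain ⟨hb, hm, p, hpS, hp, ho, hn⟩ := hv
    rw [mem_biUnion]
    refine ⟨p, hpS, ?_⟩
    rw [hV]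
    simp only
    rw [dif_pos hp.out, mem_filter]
    exact ⟨hb, sml_of_not hr hm ho hn⟩
  have h2 : ∀ p ∈ S, ((V p).card : ℝ) * (N₀ : ℝ) ^ ((1 : ℝ) / r) ≤
      2 ^ d * r * |(F.K.det : ℝ)| * (p : ℝ) ^ 4 * ∏ l, (N l : ℝ) := by
    intro p hp
    obtain ⟨hpp, hp5⟩ := hS p hp
    have : Fact p.Prime := ⟨hpp⟩
    have h3 := root_bound hr (fam_single_small F hr hK hp5 c N hN hT)
    have h4 : V p = Bx.filter fun v => Sml F p T v := by
      rw [hV]
      simp only
      rw [dif_pos hpp]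
    rw [h4]
    refine h3.trans (le_of_eq ?_)
    push_cast
    rw [Nat.cast_natAbs]
    push_cast
    ring
  calc _ ≤ ((S.biUnion V).card : ℝ) * (N₀ : ℝ) ^ ((1 : ℝ) / r) :=
        mul_le_mul_of_nonneg_right (by exact_mod_cast card_le_card h1) (by positivity)
    _ ≤ ((∑ p ∈ S, (V p).card : ℕ) : ℝ) * (N₀ : ℝ) ^ ((1 : ℝ) / r) :=
        mul_le_mul_of_nonneg_right (by exact_mod_cast card_biUnion_le) (by positivity)
    _ = ∑ p ∈ S, ((V p).card : ℝ) * (N₀ : ℝ) ^ ((1 : ℝ) / r) := by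
        push_cast
        rw [sum_mul]
    _ ≤ ∑ p ∈ S, 2 ^ d * r * |(F.K.det : ℝ)| * (p : ℝ) ^ 4 * ∏ l, (N l : ℝ) := sum_le_sum h2
    _ = _ := by rw [mul_sum, sum_mul]

end Pool.Agent.R89.SR
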