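import Pool.Agent.R89.SR.Basis
import Pool.Agent.Y732.LineFam

/-!
# The family of curves with three collinear integral points
-/

set_option autoImplicit false

namespace Pool.Agent.R89.SR

open Pool.Agent.Y732 Finset

lemma line_map {p : ℕ} {v v₀ : Fin 4 → ℤ} (h : ∀ l, v l ≡ v₀ l [ZMOD p]) :
    (lineFamily.curve v).map (Int.castRingHom (ZMod p)) =
      (lineFamily.curve v₀).map (Int.castRingHom (ZMod p)) := by
  have hc : ∀ l, ((v l : ℤ) : ZMod p) = ((v₀ l : ℤ) : ZMod p) := fun l =>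
    (ZMod.intCast_eq_intCast_iff _ _ _).2 (h l)
  rw [lineFamily_curve, lineFamily_curve]
  ext
  · simp [LineCurve, hc]
  · simp [LineCurve, hc]
  · simp [LineCurve, hc]
  · simp [LineCurve, hc]
  · simp [LineCurve]

lemma ordinary_congr {p : ℕ} {v v₀ : Fin 4 → ℤ} (h : ∀ l, v l ≡ v₀ l [ZMOD p])
    (ho : IsOrdinaryW p (lineFamily.curve v₀)) : IsOrdinaryW p (lineFamily.curve v) := by
  have hm := line_map h
  have hd : ∀ W : WeierstrassCurve ℤ, (p : ℤ) ∣ W.Δ ↔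
      (W.map (Int.castRingHom (ZMod p))).Δ = 0 := by
    intro W
    rw [WeierstrassCurve.map_Δ]
    exact (ZMod.intCast_zmod_eq_zero_iff_dvd W.Δ p).symm
  refine ⟨?_, ?_⟩
  · rw [hd, hm, ← hd]
    exact ho.1
  · rw [hm]
    exact ho.2

open scoped Classical in
theorem line_tail {p : ℕ} [hp : Fact p.Prime] (hp5 : 5 ≤ p) (v₀ : Fin 4 → ℤ)
    (ho : IsOrdinaryW p (lineFamily.curve v₀)) (N T : ℕ) (a b : ℤ) (hN : 4608 * p ^ 2 ≤ N)
    (hT : T ≤ N) :
    (((Fintype.piFinset fun l =>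
          Ico ((![a, 1, b, b] : Fin 4 → ℤ) l) ((![a, 1, b, b] : Fin 4 → ℤ) l + N)).filter
            fun v => (∀ l, v l ≡ v₀ l [ZMOD p]) ∧ lineFamily.Marked v ∧
              ¬ Large lineFamily p T v).card : ℝ) * Real.sqrt T ≤
      995328 * p ^ 8 * ((Fintype.piFinset fun l =>
          Ico ((![a, 1, b, b] : Fin 4 → ℤ) l) ((![a, 1, b, b] : Fin 4 → ℤ) l + N)).filter
            fun v => (∀ l, v l ≡ v₀ l [ZMOD p]) ∧ lineFamily.Marked v).card := by
  set Bx := Fintype.piFinset fun l =>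
          Ico ((![a, 1, b, b] : Fin 4 → ℤ) l) ((![a, 1, b, b] : Fin 4 → ℤ) l + N) with hBx
  have h1 := family_card_small lineFamily (by norm_num) (by rw [lineFamily_K]; norm_num) {p}
    (by intro q hq; rw [mem_singleton] at hq; subst hq; exact ⟨hp.out, hp5⟩)
    (![a, 1, b, b] : Fin 4 → ℤ) (fun _ => N) T T (fun _ => hT) le_rfl
  have h2 := line_card a b N p hp5 hp.out hN v₀ ho.1
  rw [← hBx] at h1 h2
  rw [lineFamily_K, sum_singleton, prod_const, card_univ, Fintype.card_fin] at h1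
  have e1 : ((T : ℝ)) ^ ((1 : ℝ) / ((2 : ℕ) : ℝ)) = Real.sqrt T := by
    rw [Real.sqrt_eq_rpow]
    norm_num
  rw [e1] at h1
  have h3 : ((Bx.filter fun v => (∀ l, v l ≡ v₀ l [ZMOD p]) ∧ lineFamily.Marked v ∧
      ¬ Large lineFamily p T v).card : ℝ) ≤ (Bx.filter fun v => lineFamily.Marked v ∧
      ∃ q ∈ ({p} : Finset ℕ), ∃ _ : Fact q.Prime, IsOrdinaryW q (lineFamily.curve v) ∧
        ¬ Large lineFamily q T v).card := by
    have : (Bx.filter fun v => (∀ l, v l ≡ v₀ l [ZMOD p]) ∧ lineFamily.Marked v ∧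
      ¬ Large lineFamily p T v) ⊆ (Bx.filter fun v => lineFamily.Marked v ∧
      ∃ q ∈ ({p} : Finset ℕ), ∃ _ : Fact q.Prime, IsOrdinaryW q (lineFamily.curve v) ∧
        ¬ Large lineFamily q T v) := by
      intro v hv
      rw [mem_filter] at hv ⊢
      exact ⟨hv.1, hv.2.2.1, p, mem_singleton_self p, hp, ordinary_congr hv.2.1 ho, hv.2.2.2⟩
    exact_mod_cast card_le_card this
  have h4 : (N : ℝ) ^ 4 ≤ 10368 * (p : ℝ) ^ 4 *
      (Bx.filter fun v => (∀ l, v l ≡ v₀ l [ZMOD p]) ∧ lineFamily.Marked v).card := by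
    exact_mod_cast h2
  refine (mul_le_mul_of_nonneg_right h3 (Real.sqrt_nonneg _)).trans (h1.trans ?_)
  have h5 : (2 : ℝ) ^ 4 * ((2 : ℕ) : ℝ) * |((3 : ℤ) : ℝ)| * (p : ℝ) ^ 4 * (N : ℝ) ^ 4 =
      96 * (p : ℝ) ^ 4 * (N : ℝ) ^ 4 := by
    norm_num
  rw [h5]
  calc 96 * (p : ℝ) ^ 4 * (N : ℝ) ^ 4 ≤ 96 * (p : ℝ) ^ 4 * (10368 * (p : ℝ) ^ 4 *
      (Bx.filter fun v => (∀ l, v l ≡ v₀ l [ZMOD p]) ∧ lineFamily.Marked v).card) :=
        mul_le_mul_of_nonneg_left h4 (by positivity)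
    _ = _ := by ring

end Pool.Agent.R89.SR
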