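import Pool.Agent.Y732.FamCard

/-!
# Members of a family with small `p`-adic regulator

The arguments of `Pool.Agent.Y732` for members of vanishing regulator, for regulators of small
norm.
-/

set_option autoImplicit false

namespace Pool.Agent.R89.SR

open Pool.Agent.Y732

section

open Polynomial Matrix

variable {p : ℕ} [hp : Fact p.Prime]

/-- `r + 1` matrices of small determinant on one orbit: two of the multipliers are close -/
theorem orbit_small {r k a c : ℕ} (hk : 1 ≤ k) {K : Matrix (Fin r) (Fin r) ℤ}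
    (hc : ¬ (p : ℤ) ^ (c + 1) ∣ K.det)
    {l : Fin (r + 1) → ℚ_[p]} {M : Fin (r + 1) → Matrix (Fin r) (Fin r) ℚ_[p]}
    (hM : ∀ i, ‖(M i).det‖ ≤ ((p : ℝ)⁻¹) ^ k) (hb : ∀ i j j', ‖M i j j'‖ ≤ p)
    (hd : ∀ i j j', ‖M i j j' - M 0 j j' - (l i - l 0) * (K j j' : ℚ_[p])‖ ≤
      (p : ℝ) ^ 2 * ((p : ℝ)⁻¹) ^ k)
    (hak : r * a + r + 1 + c < k) (hl : ∀ i j, i ≠ j → ((p : ℝ)⁻¹) ^ a ≤ ‖l i - l j‖) :
    False := by
  have hp0 : (0 : ℝ) < p := by exact_mod_cast hp.out.pos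
  have hp1 : (1 : ℝ) < p := by exact_mod_cast hp.out.one_lt
  have hinv1 : (p : ℝ)⁻¹ < 1 := inv_lt_one_of_one_lt₀ hp1
  obtain ⟨ε, hε⟩ : ∃ ε : ℝ, ε = (p : ℝ) ^ 2 * ((p : ℝ)⁻¹) ^ k := ⟨_, rfl⟩
  have hε0 : 0 ≤ ε := by rw [hε]; positivity
  have hεp : ε ≤ p := by
    have h1 : ((p : ℝ)⁻¹) ^ k ≤ ((p : ℝ)⁻¹) ^ 1 :=
      pow_le_pow_of_le_one (by positivity) hinv1.le hk
    calc ε ≤ (p : ℝ) ^ 2 * ((p : ℝ)⁻¹) ^ 1 := by
          rw [hε]
          exact mul_le_mul_of_nonneg_left h1 (by positivity)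
      _ = p := by field_simp
  rw [← hε] at hd
  -- the determinants of the shifted matrices
  set KK : Matrix (Fin r) (Fin r) ℚ_[p] := K.map (Int.castRingHom ℚ_[p]) with hKK
  have hKKe : ∀ j j', KK j j' = (K j j' : ℚ_[p]) := fun j j' => rfl
  have hKKd : KK.det = (K.det : ℚ_[p]) := by
    have h1 := RingHom.map_det (Int.castRingHom ℚ_[p]) K
    exact h1.symm
  set F : ℚ_[p][X] := det ((X : ℚ_[p][X]) • KK.map C + (M 0).map C) with hF
  have hev : ∀ s : ℚ_[p], F.eval s = (s • KK + M 0).det := by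
    intro s
    rw [hF, ← coe_evalRingHom, RingHom.map_det]
    congr 1
    ext i j
    simp
    ring
  have hsmall : ∀ i, ‖F.eval (l i - l 0)‖ ≤ (p : ℝ) ^ r * ε / p := by
    intro i
    rw [hev]
    have h2 : ∀ j j', ‖M i j j' - ((l i - l 0) • KK + M 0) j j'‖ ≤ ε := by
      intro j j'
      have e : M i j j' - ((l i - l 0) • KK + M 0) j j' =
          M i j j' - M 0 j j' - (l i - l 0) * (K j j' : ℚ_[p]) := by
        rw [Matrix.add_apply, Matrix.smul_apply, smul_eq_mul, hKKe]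
        ring
      rw [e]
      exact hd i j j'
    have h3 : ∀ j j', ‖((l i - l 0) • KK + M 0) j j'‖ ≤ p := by
      intro j j'
      have e : ((l i - l 0) • KK + M 0) j j' =
          M i j j' - (M i j j' - ((l i - l 0) • KK + M 0) j j') := by ring
      rw [e, sub_eq_add_neg]
      refine (IsUltrametricDist.norm_add_le_max _ _).trans (max_le (hb i j j') ?_)
      rw [norm_neg]
      exact (h2 j j').trans hεp
    have h4 := det_diff hp0 hε0 (hb i) h3 h2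
    have h5 : ‖(M i).det‖ ≤ (p : ℝ) ^ r * ε / p := by
      refine (hM i).trans ?_
      have e1 : (p : ℝ) ^ r * ε / p = (p : ℝ) ^ (r + 1) * ((p : ℝ)⁻¹) ^ k := by
        rw [hε]
        field_simp
        ring
      rw [e1]
      exact le_mul_of_one_le_left (by positivity) (one_le_pow₀ hp1.le)
    have e : ((l i - l 0) • KK + M 0).det =
        (M i).det - ((M i).det - ((l i - l 0) • KK + M 0).det) := by ring
    rw [e, sub_eq_add_neg]
    refine (IsUltrametricDist.norm_add_le_max _ _).trans (max_le h5 ?_)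
    rwa [norm_neg]
  have hinj : Set.InjOn (fun i => l i - l 0) ((Finset.univ : Finset (Fin (r + 1))) : Set _) := by
    intro i _ j _ hij
    by_contra hne
    have h5 := hl i j hne
    have h6 : l i - l j = 0 := by linear_combination hij
    rw [h6, norm_zero] at h5
    have h7 : 0 < ((p : ℝ)⁻¹) ^ a := by positivity
    linarith
  have hdeg : F.degree < (Finset.univ : Finset (Fin (r + 1))).card := by
    rw [Finset.card_univ, Fintype.card_fin]
    have h5 := natDegree_det_X_add_C_le KK (M 0)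
    rw [← hF, Fintype.card_fin] at h5
    refine lt_of_le_of_lt degree_le_natDegree ?_
    exact_mod_cast Nat.lt_succ_of_le h5
  have key := Lagrange.coeff_eq_sum hinj hdeg
  have hcoef : F.coeff ((Finset.univ : Finset (Fin (r + 1))).card - 1) = (K.det : ℚ_[p]) := by
    rw [Finset.card_univ, Fintype.card_fin, Nat.add_sub_cancel, ← hKKd]
    have h5 := coeff_det_X_add_C_card KK (M 0)
    rwa [Fintype.card_fin] at h5
  rw [hcoef] at key
  have hbound : ‖(K.det : ℚ_[p])‖ ≤ (p : ℝ) ^ r * ε / p * ((p : ℝ) ^ a) ^ r := by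
    rw [key]
    apply sum_le (by positivity)
    intro i _
    rw [norm_div, norm_prod]
    have h5 : ((p : ℝ)⁻¹ ^ a) ^ r ≤ ∏ j ∈ Finset.univ.erase i, ‖l i - l 0 - (l j - l 0)‖ := by
      calc ((p : ℝ)⁻¹ ^ a) ^ r = ∏ _j ∈ (Finset.univ : Finset (Fin (r + 1))).erase i,
            (p : ℝ)⁻¹ ^ a := by
            rw [Finset.prod_const, Finset.card_erase_of_mem (Finset.mem_univ i), Finset.card_univ,
              Fintype.card_fin, Nat.add_sub_cancel]
        _ ≤ _ := by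
            apply Finset.prod_le_prod
            · intro j _
              positivity
            · intro j hj
              have e : l i - l 0 - (l j - l 0) = l i - l j := by ring
              rw [e]
              exact hl i j (Finset.ne_of_mem_erase hj).symm
    calc ‖F.eval (l i - l 0)‖ / ∏ j ∈ Finset.univ.erase i, ‖l i - l 0 - (l j - l 0)‖ ≤
          ((p : ℝ) ^ r * ε / p) / ((p : ℝ)⁻¹ ^ a) ^ r :=
          div_le_div₀ (by positivity) (hsmall i) (by positivity) h5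
      _ = _ := by
          rw [div_eq_mul_inv _ (((p : ℝ)⁻¹ ^ a) ^ r)]
          congr 1
          rw [← inv_pow, ← inv_pow, inv_inv]
  have hlow := int_norm_ge hc
  have hfin : ((p : ℝ)⁻¹) ^ c ≤ (p : ℝ) ^ (r * a + r + 1) * ((p : ℝ)⁻¹) ^ k := by
    refine (hlow.trans hbound).trans (le_of_eq ?_)
    rw [hε, ← pow_mul, mul_comm a r]
    field_simp
    ring
  have h8 : (p : ℝ) ^ k ≤ (p : ℝ) ^ (r * a + r + 1 + c) := by
    have h9 := mul_le_mul_of_nonneg_left hfin (by positivity : (0 : ℝ) ≤ (p : ℝ) ^ k * (p : ℝ) ^ c)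
    have e1 : (p : ℝ) ^ k * (p : ℝ) ^ c * ((p : ℝ)⁻¹) ^ c = (p : ℝ) ^ k := by
      rw [mul_assoc, ← mul_pow, mul_inv_cancel₀ hp0.ne', one_pow, mul_one]
    have e2 : (p : ℝ) ^ k * (p : ℝ) ^ c * ((p : ℝ) ^ (r * a + r + 1) * ((p : ℝ)⁻¹) ^ k) =
        (p : ℝ) ^ (r * a + r + 1 + c) := by
      have e3 : (p : ℝ) ^ k * ((p : ℝ)⁻¹) ^ k = 1 := by
        rw [← mul_pow, mul_inv_cancel₀ hp0.ne', one_pow]
      calc _ = ((p : ℝ) ^ k * ((p : ℝ)⁻¹) ^ k) * ((p : ℝ) ^ (r * a + r + 1) * (p : ℝ) ^ c) := by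
            ring
        _ = _ := by rw [e3, one_mul, ← pow_add]
    rw [e1, e2] at h9
    exact h9
  have h10 := pow_lt_pow_right₀ hp1 hak
  linarith


/-- `T * x ≤ 1` and `p ^ k ≤ T` -/
lemma small_norm {k T : ℕ} {x : ℝ} (hT : p ^ k ≤ T) (hx : (T : ℝ) * x ≤ 1) (hx0 : 0 ≤ x) :
    x ≤ ((p : ℝ)⁻¹) ^ k := by
  have hp0 : (0 : ℝ) < p := by exact_mod_cast hp.out.pos
  have h1 : ((p : ℝ) ^ k) * x ≤ 1 := by
    refine le_trans (mul_le_mul_of_nonneg_right ?_ hx0) hx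
    exact_mod_cast hT
  rw [inv_pow, ← one_div, le_div_iff₀ (by positivity), mul_comm]
  exact h1

end

section

open MvPolynomial

variable {d r : ℕ} {F : Family d r} {v v' : Fin d → ℤ} {p : ℕ} [hp : Fact p.Prime]

/-- the marked members with a regulator of norm at most `1 / T` -/
def Sml (F : Family d r) (p : ℕ) [Fact p.Prime] (T : ℕ) (v : Fin d → ℤ) : Prop :=
  F.Marked v ∧ IsOrdinaryW p (F.curve v) ∧
    ∃ h : (WQ (F.curve v)).Point → ℚ_[p], IsHeightW p (F.curve v) h ∧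
      (T : ℝ) * ‖Reg h (fun i : Fin r => F.P v 0 i.succ)‖ ≤ 1

theorem fam_orbit_small (hp5 : 5 ≤ p) {k a e T : ℕ} (hk : 1 ≤ k) (hT : p ^ k ≤ T) (he : ¬ (p : ℤ) ^ (e + 1) ∣ F.K.det)
    (hak : r * a + r + 1 + e < k) (v : Fin (r + 1) → Fin d → ℤ) (μ : Fin (r + 1) → ℤ)
    (hv : ∀ i, Sml F p T (v i)) (hμ : ∀ i, (p : ℤ) ∣ μ i - 1)
    (hc : ∀ i l, (p : ℤ) ^ k ∣ μ 0 ^ F.w l * v 0 l - μ i ^ F.w l * v i l) :
    ∃ i j, i ≠ j ∧ (p : ℤ) ^ (a + 1) ∣ μ i - μ j := by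
  by_contra hcon
  push Not at hcon
  have hp1 : (1 : ℝ) < p := by exact_mod_cast hp.out.one_lt
  have hM := fun i => (hv i).1
  have ho := fun i => (hv i).2.1
  choose h hh hreg using fun i => (hv i).2.2
  have D := fun i => (hh i).hd.some
  -- the multipliers
  have hpp : ∀ {z : ℤ}, (p : ℤ) ∣ z → (p : ℤ_[p]) ∣ (z : ℤ_[p]) := by
    intro z hz
    have := int_dvd_padic (p := p) (k := 1) (z := z) (by rwa [pow_one])
    rwa [pow_one] at this
  have hμp : ∀ i, (p : ℤ_[p]) ∣ (μ i : ℤ_[p]) - 1 := by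
    intro i
    have := hpp (hμ i)
    push_cast at this
    exact this
  have hU : ∀ i, IsUnit (μ i : ℤ_[p]) := fun i => isUnit_of_one (hμp i)
  have hn1 : ∀ i, ‖((μ i : ℤ) : ℚ_[p])‖ = 1 := by
    intro i
    have h1 : ‖(μ i : ℤ_[p])‖ = 1 := PadicInt.isUnit_iff.1 (hU i)
    exact h1
  choose ρ hρ using fun i => (hU i).exists_right_inv
  have hμ1 : ∀ i, (p : ℤ_[p]) ∣ (μ 0 : ℤ_[p]) * ρ i - 1 := by
    intro i
    have e1 : (μ 0 : ℤ_[p]) * ρ i - 1 = ((μ 0 : ℤ_[p]) - 1) * ρ i - ((μ i : ℤ_[p]) - 1) * ρ i := by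
      linear_combination hρ i
    rw [e1]
    exact dvd_sub ((hμp 0).mul_right _) ((hμp i).mul_right _)
  have hvc : ∀ i l, (v i l : ZMod (p ^ k)) =
      PadicInt.toZModPow k ((μ 0 : ℤ_[p]) * ρ i) ^ F.w l * v 0 l := by
    intro i l
    have h1 := hc i l
    have h2 : ((μ 0 ^ F.w l * v 0 l - μ i ^ F.w l * v i l : ℤ) : ZMod (p ^ k)) = 0 := by
      rw [ZMod.intCast_zmod_eq_zero_iff_dvd]
      exact_mod_cast h1
    have h3 := congrArg (PadicInt.toZModPow (p := p) k) (hρ i)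
    rw [map_mul, map_intCast, map_one] at h3
    rw [map_mul, map_intCast, mul_pow]
    push_cast at h2
    have h4 : ((μ i : ℤ) : ZMod (p ^ k)) ^ F.w l * PadicInt.toZModPow k (ρ i) ^ F.w l = 1 := by
      rw [← mul_pow, h3, one_pow]
    linear_combination (-(v i l : ZMod (p ^ k))) * h4 -
      (PadicInt.toZModPow k (ρ i) ^ F.w l) * h2
  have hlog : ∀ i, plog p (((μ 0 : ℤ_[p]) * ρ i : ℤ_[p]) : ℚ_[p]) =
      plog p ((μ 0 : ℤ) : ℚ_[p]) - plog p ((μ i : ℤ) : ℚ_[p]) := by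
    intro i
    have h1 : ((((μ 0 : ℤ_[p]) * ρ i : ℤ_[p]) : ℚ_[p])) * ((μ i : ℤ) : ℚ_[p]) =
        ((μ 0 : ℤ) : ℚ_[p]) := by
      have h2 := congrArg (Subtype.val : ℤ_[p] → ℚ_[p]) (hρ i)
      push_cast at h2 ⊢
      have h3 : ((μ i : ℤ) : ℚ_[p]) * (ρ i : ℚ_[p]) = 1 := h2
      linear_combination ((μ 0 : ℤ) : ℚ_[p]) * h3
    have h2 : ‖((((μ 0 : ℤ_[p]) * ρ i : ℤ_[p]) : ℚ_[p]))‖ = 1 := by
      have h3 := congrArg norm h1
      rwa [norm_mul, hn1, hn1, mul_one] at h3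
    have h3 := plog_mul h2 (hn1 i)
    rw [h1] at h3
    linear_combination -h3
  have hent := fun i j j' => fam_entry hp5 hk (hM 0) (hM i) (ho 0) (hμ1 i) (hvc i) (D 0) (D i) j j'
  refine orbit_small (p := p) hk he (l := fun i => plog p ((μ i : ℤ) : ℚ_[p]))
    (M := fun i => MM F (v i) (h i)) (fun i => small_norm hT (hreg i) (norm_nonneg _)) (fun i j j' => (hent i j j').2) ?_ hak ?_
  · intro i j j'
    have h1 := (hent i j j').1
    rw [hlog i] at h1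
    have e1 : MM F (v i) (h i) j j' - MM F (v 0) (h 0) j j' -
        (plog p ((μ i : ℤ) : ℚ_[p]) - plog p ((μ 0 : ℤ) : ℚ_[p])) * ((F.K j j' : ℤ) : ℚ_[p]) =
        -(MM F (v 0) (h 0) j j' - MM F (v i) (h i) j j' -
        (plog p ((μ 0 : ℤ) : ℚ_[p]) - plog p ((μ i : ℤ) : ℚ_[p])) * ((F.K j j' : ℤ) : ℚ_[p])) := by
      ring
    rw [e1, norm_neg]
    exact h1
  · intro i j hij
    have h1 := int_norm_ge (hcon i j hij)
    have h2 : ‖((μ i : ℤ) : ℚ_[p]) - ((μ j : ℤ) : ℚ_[p])‖ ≤ (p : ℝ)⁻¹ := by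
      have h3 : (p : ℤ_[p]) ∣ ((μ i : ℤ_[p]) - (μ j : ℤ_[p])) := by
        have := dvd_sub (hμp i) (hμp j)
        rwa [sub_sub_sub_cancel_right] at this
      obtain ⟨z, hz⟩ := h3
      have h4 : ‖((μ i : ℤ_[p]) - (μ j : ℤ_[p]))‖ ≤ (p : ℝ)⁻¹ := by
        rw [hz, norm_mul, PadicInt.norm_p]
        have h5 := PadicInt.norm_le_one z
        have h6 : (0 : ℝ) ≤ (p : ℝ)⁻¹ := by positivity
        nlinarith
      exact h4
    rw [norm_plog_sub (by omega) (hn1 i) (hn1 j) h2]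
    push_cast at h1
    exact h1


end

section

open Finset

/-- the final count: the exponents are chosen -/
theorem countF_small {p d r N₀ D : ℕ} (hp : p.Prime) (hr : 0 < r) (hD : 0 < D) (w : Fin d → ℕ)
    (c : Fin d → ℤ) (N : Fin d → ℕ) (Z : Finset (Fin d → ℤ))
    (hZ : ∀ v ∈ Z, ∀ l, c l ≤ v l ∧ v l < c l + N l) (hN : ∀ l, N₀ ≤ N l)
    (H : ∀ k a e : ℕ, 1 ≤ k → p ^ k ≤ N₀ → ¬ p ^ (e + 1) ∣ D → r * a + r + 1 + e < k →
      ∀ (v : Fin (r + 1) → Fin d → ℤ) (μ : Fin (r + 1) → ℤ), (∀ i, v i ∈ Z) →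
      (∀ i, (p : ℤ) ∣ μ i - 1) →
      (∀ i l, (p : ℤ) ^ k ∣ μ 0 ^ w l * v 0 l - μ i ^ w l * v i l) →
      ∃ i j, i ≠ j ∧ (p : ℤ) ^ (a + 1) ∣ μ i - μ j) :
    Z.card ^ r * N₀ ≤ (2 ^ d * r * D * p ^ 4 * ∏ l, N l) ^ r := by
  rcases Nat.eq_zero_or_pos N₀ with h0 | hN0
  · rw [h0, mul_zero]
    exact Nat.zero_le _
  have hp2 := hp.two_le
  have hp0 := hp.pos
  obtain ⟨e, he1, he2⟩ : ∃ e, p ^ e ∣ D ∧ ¬ p ^ (e + 1) ∣ D := by
    refine ⟨D.factorization p, Nat.ordProj_dvd _ _, Nat.pow_succ_factorization_not_dvd ?_ hp⟩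
    omega
  have he3 : p ^ e ≤ D := Nat.le_of_dvd (by omega) he1
  have he4 : D ≤ D ^ r := Nat.le_self_pow hr.ne' D
  obtain ⟨k, hk⟩ : ∃ k, k = Nat.log p N₀ := ⟨_, rfl⟩
  have hk1 : p ^ k ≤ N₀ := by
    rw [hk]
    exact Nat.pow_log_le_self p hN0.ne'
  have hk2 : N₀ < p ^ (k + 1) := by
    rw [hk]
    exact Nat.lt_pow_succ_log_self hp.one_lt N₀
  set M : ℕ := 2 ^ d * r * ∏ l, N l with hM
  have hfin : (M * (D * p ^ 4)) ^ r = (2 ^ d * r * D * p ^ 4 * ∏ l, N l) ^ r := by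
    rw [hM]
    congr 1
    ring
  rw [← hfin]
  have h4r : p ^ (2 * r + 2) ≤ (p ^ 4) ^ r := by
    rw [← pow_mul]
    exact Nat.pow_le_pow_right hp0 (by omega)
  -- it is enough to bound by the product of the constants
  suffices h : Z.card ^ r * N₀ ≤ M ^ r * (p ^ e * p ^ (2 * r + 2)) by
    refine h.trans ?_
    rw [mul_pow M, mul_pow D]
    exact Nat.mul_le_mul_left _ (Nat.mul_le_mul (he3.trans he4) h4r)
  by_cases hkr : r + 1 + e < k
  · obtain ⟨a, ha⟩ : ∃ a, a = (k - r - 2 - e) / r := ⟨_, rfl⟩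
    have ha1 : r * a ≤ k - r - 2 - e := by
      rw [ha]
      exact Nat.mul_div_le _ _
    have ha2 : k - r - 2 - e < r * a + r := by
      rw [ha]
      exact Nat.lt_mul_div_succ _ hr
    have ha3 : a ≤ r * a := Nat.le_mul_of_pos_left a hr
    have key := countG hp (by omega) (by omega) w c N Z hZ (fun l => hk1.trans (hN l))
      (H k a e (by omega) hk1 he2 (by omega))
    have h1 : N₀ ≤ (p ^ a) ^ r * (p ^ e * p ^ (2 * r + 2)) := by
      rw [← pow_mul, ← pow_add, ← pow_add]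
      refine hk2.le.trans (Nat.pow_le_pow_right hp0 ?_)
      rw [mul_comm a r]
      omega
    calc Z.card ^ r * N₀ ≤ Z.card ^ r * ((p ^ a) ^ r * (p ^ e * p ^ (2 * r + 2))) :=
          Nat.mul_le_mul_left _ h1
      _ = (Z.card * p ^ a) ^ r * (p ^ e * p ^ (2 * r + 2)) := by rw [mul_pow, mul_assoc]
      _ ≤ M ^ r * (p ^ e * p ^ (2 * r + 2)) := Nat.mul_le_mul_right _ (Nat.pow_le_pow_left key r)
  · have h1 : N₀ ≤ p ^ e * p ^ (2 * r + 2) := by
      rw [← pow_add]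
      refine hk2.le.trans (Nat.pow_le_pow_right hp0 ?_)
      omega
    have h2 : Z.card ≤ M := by
      refine (box_card c N Z hZ).trans ?_
      rw [hM]
      exact Nat.le_mul_of_pos_left _ (by positivity)
    exact Nat.mul_le_mul (Nat.pow_le_pow_left h2 r) h1


end

end Pool.Agent.R89.SR
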